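import Pool.Agent.Q223.ID.Feq
import Pool.Agent.Q223.TW.LocB
import Pool.Agent.Q57.MC.Loc2
import Pool.Agent.Q49.CO.Tr

/-!
# The local functional equation of the ideal of a program
-/

set_option autoImplicit false
set_option linter.unusedSectionVars false

namespace Pool.Agent.Q49.BR

open MvPolynomial Pool.Agent.W574.SM Pool.Agent.W574.HS Pool.Agent.Q223.MM Pool.Agent.Q223.ID
open Pool.Agent.H628R4.TP (IsLocalBFunction weylS)
open Pool.Agent.W206.CU (weylS_conj)
open Pool.Agent.Q223.TW (bfun_L)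
open Pool.Agent.Y229 (IsLocalBI)
open Pool.Agent.Y229.MS (stabK)

/-! ### Isomorphisms which fix the origin -/

/-- an isomorphism which fixes the origin takes local functional equations to local functional
equations -/
theorem local_iso {σ τ : Type} [Finite σ] [Finite τ]
    (ψ : MvPolynomial σ ℂ ≃ₐ[ℂ] MvPolynomial τ ℂ) (h : ∀ i, constantCoeff (ψ (X i)) = 0)
    {f : MvPolynomial σ ℂ} {b : Polynomial ℂ} (hb : IsLocalBFunction f b) :
    IsLocalBFunction (ψ f) b := by
  obtain ⟨L, m, a, Q, hQ⟩ := hb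
  set u : σ → MvPowerSeries τ ℂ := fun i => ((ψ (X i) : MvPolynomial τ ℂ) : MvPowerSeries τ ℂ)
    with hu
  have hs : MvPowerSeries.HasSubst u := MvPowerSeries.hasSubst_of_constantCoeff_zero fun i => by
    rw [hu]
    beta_reduce
    rw [← MvPowerSeries.coeff_zero_eq_constantCoeff_apply, MvPolynomial.coeff_coe,
      ← constantCoeff_eq]
    exact h i
  set θ : MvPowerSeries σ ℂ →ₐ[ℂ] MvPowerSeries τ ℂ := MvPowerSeries.substAlgHom (R := ℂ) hs
    with hθ
  have hθc : ∀ P : MvPolynomial σ ℂ, θ (P : MvPowerSeries σ ℂ) =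
      ((ψ P : MvPolynomial τ ℂ) : MvPowerSeries τ ℂ) := by
    intro P
    rw [hθ, MvPowerSeries.substAlgHom_coe hs]
    have h3 : (aeval u : MvPolynomial σ ℂ →ₐ[ℂ] MvPowerSeries τ ℂ) =
        (MvPolynomial.coeToMvPowerSeries.algHom (R := ℂ) ℂ).comp
          (ψ : MvPolynomial σ ℂ →ₐ[ℂ] MvPolynomial τ ℂ) := by
      apply MvPolynomial.algHom_ext
      intro i
      rw [aeval_X, AlgHom.comp_apply, MvPolynomial.coeToMvPowerSeries.algHom_apply,
        hu]
      beta_reduce
      rw [AlgEquiv.coe_toAlgHom]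
      ext d
      simp
    rw [h3, AlgHom.comp_apply, MvPolynomial.coeToMvPowerSeries.algHom_apply, AlgEquiv.coe_toAlgHom]
    ext d
    simp
  have hθC : ∀ c : ℂ, θ (MvPowerSeries.C c) = MvPowerSeries.C c := by
    intro c
    rw [← MvPolynomial.coe_C, hθc]
    have h1 : ψ (C c) = C c := ψ.commutes c
    rw [h1, MvPolynomial.coe_C]
  refine ⟨L, m, fun l => θ (a l), fun l => ⟨_, weylS_conj ψ (Q l).2⟩, fun s => ?_⟩
  have h1 := congrArg θ (hQ s)
  rw [map_mul, hθC, hθc, map_pow, map_sum] at h1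
  rw [h1]
  refine Finset.sum_congr rfl fun l _ => ?_
  rw [map_mul, hθC, map_mul, hθc]
  congr 3
  have h9 : ψ.symm (ψ f ^ (s + 1)) = f ^ (s + 1) := by
    rw [← map_pow, AlgEquiv.symm_apply_apply]
  show _ = ψ ((Q l : Module.End ℂ (MvPolynomial σ ℂ)) (ψ.symm (ψ f ^ (s + 1))))
  rw [h9]

section prog

variable {n r κ : ℕ}

theorem rename_univ_stabK (f : Fin r → MvPolynomial (Fin n) ℂ) :
    rename (eqv r n κ) (univ (stabI (Fin κ) f)) =
      stabK (rename finSumFinEquiv (univ f)) κ :=
  rename_univ_stab f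

theorem univ_cc {σ ι : Type} [Fintype ι] (f : ι → MvPolynomial σ ℂ) :
    constantCoeff (univ f) = 0 := by
  unfold univ
  rw [map_sum]
  refine Finset.sum_eq_zero fun j _ => ?_
  rw [map_mul, constantCoeff_X, zero_mul]

theorem psi_org (o : Fin κ → Option (Fin κ)) (v : Fin κ → Fin n) (ho : Forest o)
    (x : Fin n ⊕ Fin κ) : constantCoeff (psi o v ho (X x)) = 0 := by
  rcases x with i | m
  · have h1 : psi o v ho (X (Sum.inl i)) = X (Sum.inl i) := psiF_x o v i
    rw [h1, constantCoeff_X]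
  · rw [psi_z, map_sub, constantCoeff_X]
    unfold wz
    rw [map_mul, constantCoeff_X, mul_zero, sub_zero]

theorem psi_org' (o : Fin κ → Option (Fin κ)) (v : Fin κ → Fin n) (ho : Forest o)
    (x : Fin n ⊕ Fin κ) : constantCoeff ((psi o v ho).symm (X x)) = 0 := by
  rcases x with i | m
  · have h1 : (psi o v ho).symm (X (Sum.inl i)) = X (Sum.inl i) := psiB_x o v i
    rw [h1, constantCoeff_X]
  · have h1 : (psi o v ho).symm (X (Sum.inr m)) = jN o v κ m := psiB_z o v m
    rw [h1, jN_eq ho v m, map_add, map_mul, constantCoeff_X, constantCoeff_X, mul_zero,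
      add_zero]

/-- **The local functional equation of the generators of a program.** -/
theorem localBI_gens {o : Fin κ → Option (Fin κ)} (ho : Forest o) {v : Fin κ → Fin n}
    {a : Fin r → ℂ} {c : Fin r → Fin κ → ℂ} {e : Fin r → Fin κ → MvPolynomial (Fin n) ℂ}
    {f : Fin r → MvPolynomial (Fin n) ℂ} (hf : ∃ j, f j ≠ 0)
    (hH : ∀ j, Horner o v (c j) (a j) (e j) (f j)) (hne : ∃ i, gens o v a c i ≠ 0)
    {b : Polynomial ℂ} (hb : IsLocalBI f b) :
    IsLocalBI (gens o v a c) (b.comp (Polynomial.X + Polynomial.C (κ : ℂ))) := by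
  classical
  have h1 := Pool.Agent.Q57.MC.univ_of_localBI f b hb
  have h2 := local_iso (renameEquiv ℂ (finSumFinEquiv : Fin r ⊕ Fin n ≃ Fin (r + n)))
    (fun i => by rw [renameEquiv_apply, rename_X, constantCoeff_X]) h1
  rw [renameEquiv_apply] at h2
  have h3 : IsLocalBFunction (stabK (rename (finSumFinEquiv : Fin r ⊕ Fin n ≃ Fin (r + n))
      (univ f)) κ) ((Polynomial.X + 1) * b.comp (Polynomial.X + Polynomial.C (κ : ℂ))) := by
    refine (bfun_L (κ := κ) (fun h0 => ?_) ?_ h2 AlgEquiv.refl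
      (fun i => constantCoeff_X _ _) rfl).2 b rfl
    · exact univ_ne_zero f hf ((map_eq_zero_iff _ (rename_injective _
        (Equiv.injective _))).1 h0)
    · rw [← constantCoeff_eq, constantCoeff_rename, univ_cc]
  rw [← rename_univ_stabK] at h3
  have h4 := local_iso (renameEquiv ℂ (eqv r n κ)).symm (fun i => by
    rw [renameEquiv_symm, renameEquiv_apply, rename_X, constantCoeff_X]) h3
  have h5 : (renameEquiv ℂ (eqv r n κ)).symm (rename (eqv r n κ) (univ (stabI (Fin κ) f))) =
      univ (stabI (Fin κ) f) := (renameEquiv ℂ (eqv r n κ)).symm_apply_apply _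
  rw [h5] at h4
  have h6 := local_iso (extR (Fin r ⊕ Fin κ) (psi o v ho)) (fun x => by
    rcases x with x | x
    · rw [extR_inl, constantCoeff_X]
    · have h7 := extR_ren (α := Fin r ⊕ Fin κ) (psi o v ho) (X x)
      rw [rename_X] at h7
      rw [h7, constantCoeff_rename, psi_org]) h4
  have h8 := local_iso (shear fun j m => rename Sum.inl (e j m)) (fun x => by
    show constantCoeff (shF (fun (j : Fin r) (m : Fin κ) =>
      (rename Sum.inl (e j m) : MvPolynomial (Fin n ⊕ Fin κ) ℂ)) (X x)) = 0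
    rcases x with (j | m) | x
    · rw [shF_y, constantCoeff_X]
    · rw [shF_w, map_add, constantCoeff_X, map_sum, zero_add]
      refine Finset.sum_eq_zero fun j _ => ?_
      rw [map_mul, constantCoeff_X, zero_mul]
    · have h7 := shF_ren (fun (j : Fin r) (m : Fin κ) =>
        (rename Sum.inl (e j m) : MvPolynomial (Fin n ⊕ Fin κ) ℂ)) (X x)
      rw [rename_X] at h7
      rw [h7, constantCoeff_X]) h6
  rw [univ_gens ho hH] at h8
  exact Pool.Agent.Q57.MC.localBI_of_univ _ hne _ h8

end prog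

end Pool.Agent.Q49.BR
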