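import Pool.Agent.Q223.ID.Series

/-!
# The jets at the origin for the ideal `(f, u_1, …, u_κ)`
-/

set_option autoImplicit false
set_option linter.unusedSectionVars false

namespace Pool.Agent.Q49.BR

open MvPolynomial Pool.Agent.W428.MOT Pool.Agent.TH192.MT Pool.Agent.Q223.ID
open Pool.Agent.W63.MTFin (mapMeas L_mul)

variable {K : Type} [Field K] {σ τ ι ι' μ : Type}

/-- the jets at the origin of level `N` on which the family has order at least `i` -/
def T0 (f : ι → MvPolynomial σ K) (i N : ℕ) : Set (Pt K (σ × Fin (N + 1))) :=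
  {z | (∀ i, z (i, 0) = 0) ∧ z ∈ TF f i N}

theorem constr_org [Finite σ] {N : ℕ} :
    Constr {z : Pt K (σ × Fin (N + 1)) | ∀ i, z (i, 0) = 0} :=
  Constr.all fun i => Constr.eqz (IsPF.coord (i, 0))

theorem constr_T0 [Finite σ] [Finite ι] (f : ι → MvPolynomial σ K) (i N : ℕ) :
    Constr (T0 f i N) :=
  Constr.and constr_org (constr_TF f i N)

theorem constr_single [Finite σ] : Constr ({0} : Set (Pt K σ)) := by
  have h : ({0} : Set (Pt K σ)) = {z | ∀ i, z i = 0} := by
    ext z
    rw [Set.mem_singleton_iff, Set.mem_ofPred_eq]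
    exact ⟨fun h i => by rw [h]; rfl, fun h => funext h⟩
  rw [h]
  exact Constr.all fun i => Constr.eqz (IsPF.coord i)

theorem mem_JetF0 {N : ℕ} (f : ι → MvPolynomial σ K) (z : Pt K (σ × Fin (N + 1))) :
    z ∈ JetF f {0} N ↔ z ∈ T0 f N N ∧ ∃ j, PowerSeries.coeff N (aeval (ar z) (f j)) ≠ 0 := by
  constructor
  · rintro ⟨h1, h2, h3⟩
    exact ⟨⟨fun i => congrFun (Set.mem_singleton_iff.1 h1) i, h2⟩, h3⟩
  · rintro ⟨⟨h1, h2⟩, h3⟩
    exact ⟨Set.mem_singleton_iff.2 (funext h1), h2, h3⟩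

variable {R : Type} [CommRing R] (M : Meas K R) [Fintype σ] [Fintype μ]

theorem chi_org : M.χ σ ({0} : Set (Pt K σ)) = 1 := by
  rw [← M.point (ι := Fin 0)]
  refine M.iso _ _ constr_single Constr.univ (fun _ i => i.elim0) (fun _ _ => 0)
    (regularOn_poly (fun i => i.elim0) _) (regularOn_poly (fun i => IsPF.zero) _) ?_ ?_ ?_ ?_
  · intro z _
    trivial
  · intro w _
    rfl
  · intro z hz
    exact (Set.mem_singleton_iff.1 hz).symm
  · intro w _
    funext i
    exact i.elim0

theorem chi_T0 [Finite ι] (f : ι → MvPolynomial σ K) (N : ℕ) :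
    M.χ _ (T0 f N N) = M.χ _ (JetF f {0} N) + M.χ _ (T0 f (N + 1) N) := by
  rw [← M.add _ _ (constr_JetF f constr_single N) (constr_T0 f (N + 1) N)]
  · congr 1
    ext z
    rw [Set.mem_union, mem_JetF0]
    constructor
    · intro h
      by_cases h1 : ∃ j, PowerSeries.coeff N (aeval (ar z) (f j)) ≠ 0
      · exact Or.inl ⟨h, h1⟩
      · push Not at h1
        refine Or.inr ⟨h.1, fun j k hk => ?_⟩
        rcases Nat.lt_succ_iff_lt_or_eq.1 hk with h2 | rfl
        · exact h.2 j k h2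
        · exact h1 j
    · rintro (h | h)
      · exact h.1
      · exact ⟨h.1, fun j k hk => h.2 j k (by omega)⟩
  · rw [Set.disjoint_left]
    intro z hz h
    obtain ⟨-, j, hj⟩ := (mem_JetF0 f z).1 hz
    exact hj (h.2 j N (Nat.lt_succ_self N))

theorem chi_T0_succ [Finite ι] (f : ι → MvPolynomial σ K) (N : ℕ) :
    M.χ _ (T0 f (N + 1) (N + 1)) = M.χ _ (T0 f (N + 1) N) * M.L ^ Fintype.card σ := by
  refine chi_split M (Equiv.ofBijective _ (lastE_bij σ N)) _ _ (constr_T0 f (N + 1) N)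
    fun z => ?_
  have h1 : ∀ j, ∀ k ≤ N, PowerSeries.coeff k (aeval (ar z) (f j)) =
      PowerSeries.coeff k (aeval (ar fun i => z ((Equiv.ofBijective _ (lastE_bij σ N))
        (Sum.inl i))) (f j)) := by
    intro j
    refine coeff_congr (f j) N _ _ fun i k hk => ?_
    rw [coeff_ar' _ _ _ (by omega), coeff_ar' _ _ _ (by omega)]
    rfl
  constructor
  · rintro ⟨h0, h⟩
    refine ⟨fun i => ?_, fun j k hk => ?_⟩
    · exact h0 i
    · rw [← h1 j k (by omega)]
      exact h j k hk
  · rintro ⟨h0, h⟩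
    refine ⟨fun i => ?_, fun j k hk => ?_⟩
    · exact h0 i
    · rw [h1 j k (by omega)]
      exact h j k hk

/-- a jet at the origin on which all members vanish at the origin has order at least one -/
theorem chi_T0_one [Finite ι] (f : ι → MvPolynomial σ K) (h0 : ∀ j, constantCoeff (f j) = 0) :
    M.χ _ (T0 f 1 1) = M.L ^ Fintype.card σ := by
  have h : M.χ _ (T0 f 1 1) = M.χ _ (T0 f 1 0) * M.L ^ Fintype.card σ := chi_T0_succ M f 0
  rw [h]
  have h1 : M.χ _ (T0 f 1 0) = 1 := by
    have e1 : T0 f 1 0 = {0} := by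
      ext z
      rw [Set.mem_singleton_iff]
      constructor
      · rintro ⟨h2, -⟩
        funext p
        obtain ⟨i, k⟩ := p
        have hk : k = 0 := Fin.ext (by omega)
        rw [hk]
        exact h2 i
      · rintro rfl
        refine ⟨fun i => rfl, fun j k hk => ?_⟩
        obtain rfl : k = 0 := by omega
        have h3 := coeff_congr (f j) 0 (ar (0 : Pt K (σ × Fin (0 + 1)))) 0
          (fun i k hk => by
            obtain rfl : k = 0 := by omega
            rw [coeff_ar' _ _ _ (Nat.succ_pos 0)]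
            simp) 0 le_rfl
        rw [h3, MvPolynomial.aeval_zero, h0 j, map_zero, map_zero]
    rw [e1]
    exact chi_org M
  rw [h1, one_mul]

theorem chi_T0_stab1 [Finite ι] (f : ι → MvPolynomial σ K) (N : ℕ) :
    M.χ _ (T0 (stabI μ f) (N + 1) N) = M.χ _ (T0 f (N + 1) N) := by
  classical
  refine M.iso _ _ (constr_T0 _ _ _) (constr_T0 _ _ _)
    (fun z p => z (Sum.inl p.1, p.2))
    (fun w p => match p with
      | (Sum.inl i, k) => w (i, k)
      | (Sum.inr _, _) => 0)
    (regularOn_poly (fun i => IsPF.coord _) _) (regularOn_poly (fun i => ?_) _) ?_ ?_ ?_ ?_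
  · obtain ⟨i | m, k⟩ := i
    · exact IsPF.coord _
    · exact IsPF.zero
  · intro z hz
    exact ⟨fun i => hz.1 (Sum.inl i), ((mem_TF_stab (le_refl _) f z).1 hz.2).1⟩
  · intro w hw
    refine ⟨?_, (mem_TF_stab (le_refl _) f _).2 ⟨hw.2, fun m k _ => rfl⟩⟩
    rintro (i | m)
    · exact hw.1 i
    · rfl
  · intro z hz
    have h := ((mem_TF_stab (le_refl _) f z).1 hz.2).2
    funext p
    obtain ⟨i | m, k⟩ := p
    · rfl
    · exact (h m k k.2).symm
  · intro w _
    rfl

theorem chi_T0_stab0 [Finite ι] (f : ι → MvPolynomial σ K) (N : ℕ) :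
    M.χ _ (T0 (stabI μ f) (N + 1) (N + 1)) = M.χ _ (T0 f (N + 1) (N + 1)) *
      M.L ^ Fintype.card μ := by
  rw [chi_T0_succ, chi_T0_succ, chi_T0_stab1, Fintype.card_sum, pow_add, mul_assoc]

end Pool.Agent.Q49.BR
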