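import Pool.Agent.Q49.BR.Series
import Pool.Agent.W375.MG.Out

/-!
# The poles of the local zeta functions of `(f)` and `(f, u_1, …, u_κ)`
-/

set_option autoImplicit false
set_option linter.unusedSectionVars false

namespace Pool.Agent.Q49.BR

open Pool.Agent.W428.MOT Pool.Agent.TH192.MT Pool.Agent.Q223.ID
open Pool.Agent.W375.MG (IsPole ratRing_mono)
open Pool.Agent.W63.MTFin (geo_mul geo_mem X_mem C_mem)

section

variable {K : Type} [Field K]

theorem resc_C (u a : MK K) : PowerSeries.rescale u (PowerSeries.C a) = PowerSeries.C a := by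
  ext d
  rw [PowerSeries.coeff_rescale, PowerSeries.coeff_C]
  split_ifs with h
  · rw [h, pow_zero, one_mul]
  · rw [mul_zero]

theorem resc_X (u : MK K) : PowerSeries.rescale u PowerSeries.X =
    PowerSeries.C u * PowerSeries.X := by
  ext d
  rw [PowerSeries.coeff_rescale, PowerSeries.coeff_C_mul, PowerSeries.coeff_X]
  split_ifs with h
  · rw [h, pow_one]
  · rw [mul_zero, mul_zero]

theorem resc_geo (k a b : ℤ) (hb : 0 < b) :
    PowerSeries.rescale (((Lu K) ^ k : (MK K)ˣ) : MK K) (geo K a b) = geo K (a + k * b) b := by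
  have h1 := congrArg (PowerSeries.rescale (((Lu K) ^ k : (MK K)ˣ) : MK K))
    (geo_mul (K := K) a b hb)
  have h2 := geo_mul (K := K) (a + k * b) b hb
  have h3 : PowerSeries.C (((Lu K) ^ a : (MK K)ˣ) : MK K) *
      (PowerSeries.C (((Lu K) ^ k : (MK K)ˣ) : MK K) * PowerSeries.X) ^ b.toNat =
      PowerSeries.C (((Lu K) ^ (a + k * b) : (MK K)ˣ) : MK K) * PowerSeries.X ^ b.toNat := by
    have h4 : (((Lu K) ^ (a + k * b) : (MK K)ˣ) : MK K) =
        (((Lu K) ^ a : (MK K)ˣ) : MK K) * (((Lu K) ^ k : (MK K)ˣ) : MK K) ^ b.toNat := by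
      rw [← Units.val_pow_eq_pow_val, ← Units.val_mul, ← zpow_natCast, ← zpow_mul, ← zpow_add,
        Int.toNat_of_nonneg hb.le]
    rw [h4, mul_pow, map_mul, map_pow]
    ring
  rw [map_mul, map_one, map_sub, map_one, map_mul, resc_C, map_pow, resc_X, h3] at h1
  calc PowerSeries.rescale (((Lu K) ^ k : (MK K)ˣ) : MK K) (geo K a b)
      = ((1 - PowerSeries.C (((Lu K) ^ (a + k * b) : (MK K)ˣ) : MK K) *
          PowerSeries.X ^ b.toNat) * geo K (a + k * b) b) *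
          PowerSeries.rescale (((Lu K) ^ k : (MK K)ˣ) : MK K) (geo K a b) := by
        rw [h2, one_mul]
    _ = geo K (a + k * b) b * ((1 - PowerSeries.C (((Lu K) ^ (a + k * b) : (MK K)ˣ) : MK K) *
          PowerSeries.X ^ b.toNat) *
          PowerSeries.rescale (((Lu K) ^ k : (MK K)ˣ) : MK K) (geo K a b)) := by ring
    _ = geo K (a + k * b) b := by rw [h1, mul_one]

theorem resc_mem (k : ℤ) {S : Set (ℤ × ℤ)} (hS : ∀ p ∈ S, 0 < p.2) {z : PowerSeries (MK K)}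
    (hz : z ∈ ratRing K S) : PowerSeries.rescale (((Lu K) ^ k : (MK K)ˣ) : MK K) z ∈
      ratRing K {p : ℤ × ℤ | (p.1 - k * p.2, p.2) ∈ S} := by
  unfold ratRing at hz
  refine Algebra.adjoin_induction (p := fun z _ =>
    PowerSeries.rescale (((Lu K) ^ k : (MK K)ˣ) : MK K) z ∈
      ratRing K {p : ℤ × ℤ | (p.1 - k * p.2, p.2) ∈ S}) ?_ ?_ ?_ ?_ hz
  · rintro x (hx | ⟨p, hp, rfl⟩)
    · rw [Set.mem_singleton_iff] at hx
      rw [hx, resc_X]
      exact (ratRing K _).mul_mem (C_mem _ _) (X_mem _)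
    · rw [resc_geo k _ _ (hS p hp)]
      refine geo_mem (p := (p.1 + k * p.2, p.2)) ?_
      show (p.1 + k * p.2 - k * p.2, p.2) ∈ S
      rw [add_sub_cancel_right]
      exact hp
  · intro r
    have h1 : algebraMap (MK K) (PowerSeries (MK K)) r = PowerSeries.C r := rfl
    rw [h1, resc_C]
    exact C_mem _ _
  · intro x y _ _ hx hy
    rw [map_add]
    exact (ratRing K _).add_mem hx hy
  · intro x y _ _ hx hy
    rw [map_mul]
    exact (ratRing K _).mul_mem hx hy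

end

section poles

variable {σ ι μ : Type} [Fintype σ] [Fintype μ] [Finite ι]

theorem zt_mem (f : ι → MvPolynomial σ ℂ) (S : Set (ℤ × ℤ)) :
    zetaJ f ∈ ratRing ℂ S ↔ zt f ∈ ratRing ℂ S := by
  rw [zetaJ_zt]
  constructor
  · intro h
    have h2 : zt f = PowerSeries.C (((Lu ℂ) ^ (Fintype.card σ : ℤ) : (MK ℂ)ˣ) : MK ℂ) *
        (PowerSeries.C (((Lu ℂ) ^ (-(Fintype.card σ : ℤ)) : (MK ℂ)ˣ) : MK ℂ) * zt f) := by
      rw [← mul_assoc, ← map_mul, ← Units.val_mul, ← zpow_add, add_neg_cancel, zpow_zero,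
        Units.val_one, map_one, one_mul]
    rw [h2]
    exact (ratRing ℂ S).mul_mem (C_mem _ _) h
  · intro h
    exact (ratRing ℂ S).mul_mem (C_mem _ _) h

/-- the pairs with slope not `s` -/
def off (s : ℚ) : Set (ℤ × ℤ) := {p | 0 < p.2 ∧ ((p.1 : ℚ) / p.2) ≠ s}

theorem off_pos {s : ℚ} : ∀ p ∈ off s, 0 < p.2 := fun _ hp => hp.1

theorem resc_off (k : ℤ) {s : ℚ} {z : PowerSeries (MK ℂ)} (hz : z ∈ ratRing ℂ (off s)) :
    PowerSeries.rescale (((Lu ℂ) ^ k : (MK ℂ)ˣ) : MK ℂ) z ∈ ratRing ℂ (off (s + k)) := by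
  refine ratRing_mono ?_ (resc_mem k off_pos hz)
  rintro p ⟨h1, h2⟩
  refine ⟨h1, fun h3 => h2 ?_⟩
  have h4 : (p.2 : ℚ) ≠ 0 := by exact_mod_cast h1.ne'
  push_cast
  rw [sub_div, mul_div_assoc, div_self h4, mul_one, h3, add_sub_cancel_right]

/-- **The poles of the two zeta functions.** -/
theorem mem_iff (f : ι → MvPolynomial σ ℂ) (h0 : ∀ j, MvPolynomial.constantCoeff (f j) = 0)
    {s : ℚ} :
    (s ≠ Fintype.card μ → zetaJ (stabI μ f) ∈ ratRing ℂ (off (s - Fintype.card μ)) →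
      zetaJ f ∈ ratRing ℂ (off s)) ∧
    (s ≠ 0 → zetaJ f ∈ ratRing ℂ (off s) →
      zetaJ (stabI μ f) ∈ ratRing ℂ (off (s - Fintype.card μ))) := by
  have hrel := zt_stab (μ := μ) f h0
  set κ := Fintype.card μ with hκ
  have hY : ((((Lu ℂ)⁻¹ : (MK ℂ)ˣ) : MK ℂ) ^ κ) = (((Lu ℂ) ^ (-(κ : ℤ)) : (MK ℂ)ˣ) : MK ℂ) := by
    rw [zpow_neg, zpow_natCast, ← inv_pow, Units.val_pow_eq_pow_val]
  rw [hY] at hrel
  constructor
  · intro hs h
    rw [zt_mem] at h ⊢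
    have h1 := resc_off (κ : ℤ) h
    have e1 : s - (κ : ℚ) + ((κ : ℤ) : ℚ) = s := by
      push_cast
      ring
    rw [e1] at h1
    set W := PowerSeries.rescale (((Lu ℂ) ^ (κ : ℤ) : (MK ℂ)ˣ) : MK ℂ) (zt (stabI μ f)) with hW
    have h2 := congrArg (PowerSeries.rescale (((Lu ℂ) ^ (κ : ℤ) : (MK ℂ)ˣ) : MK ℂ)) hrel
    have h3 : PowerSeries.rescale (((Lu ℂ) ^ (κ : ℤ) : (MK ℂ)ˣ) : MK ℂ)
        (PowerSeries.rescale (((Lu ℂ) ^ (-(κ : ℤ)) : (MK ℂ)ˣ) : MK ℂ) (zt f)) = zt f := by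
      rw [PowerSeries.rescale_rescale, ← Units.val_mul, ← zpow_add, neg_add_cancel, zpow_zero,
        Units.val_one, PowerSeries.rescale_one, RingHom.id_apply]
    have h4 : (PowerSeries.C (((Lu ℂ) ^ (-(κ : ℤ)) : (MK ℂ)ˣ) : MK ℂ) : PowerSeries (MK ℂ)) *
        PowerSeries.C (((Lu ℂ) ^ (κ : ℤ) : (MK ℂ)ˣ) : MK ℂ) = 1 := by
      rw [← map_mul, ← Units.val_mul, ← zpow_add, neg_add_cancel, zpow_zero, Units.val_one,
        map_one]
    rw [map_mul, map_sub, map_one, map_mul, resc_C, resc_X, map_add, map_mul, resc_C, resc_X,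
      map_mul, map_sub, map_one, map_sub, map_one, resc_X, h3, ← hW, ← mul_assoc, h4,
      one_mul] at h2
    have h5 := geo_mul (K := ℂ) (κ : ℤ) 1 one_pos
    rw [show ((1 : ℤ).toNat) = 1 from rfl, pow_one] at h5
    have h6 : zt f = geo ℂ (κ : ℤ) 1 * ((1 - PowerSeries.X) * W -
        (1 - PowerSeries.C (((Lu ℂ) ^ (-(κ : ℤ)) : (MK ℂ)ˣ) : MK ℂ)) *
          (PowerSeries.C (((Lu ℂ) ^ (κ : ℤ) : (MK ℂ)ˣ) : MK ℂ) * PowerSeries.X)) := by
      rw [h2]
      linear_combination (-(zt f)) * h5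
    rw [h6]
    refine (ratRing ℂ _).mul_mem (geo_mem (p := ((κ : ℤ), 1)) ⟨one_pos, ?_⟩)
      ((ratRing ℂ _).sub_mem ((ratRing ℂ _).mul_mem ((ratRing ℂ _).sub_mem
        (ratRing ℂ _).one_mem (X_mem _)) h1) ((ratRing ℂ _).mul_mem
          ((ratRing ℂ _).sub_mem (ratRing ℂ _).one_mem (C_mem _ _))
          ((ratRing ℂ _).mul_mem (C_mem _ _) (X_mem _))))
    intro h7
    apply hs
    rw [← h7]
    push_cast
    rw [div_one]
  · intro hs h
    rw [zt_mem] at h ⊢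
    have h1 := resc_off (-(κ : ℤ)) h
    have e1 : s + ((-(κ : ℤ) : ℤ) : ℚ) = s - (κ : ℚ) := by
      push_cast
      ring
    rw [e1] at h1
    have h5 := geo_mul (K := ℂ) (-(κ : ℤ)) 1 one_pos
    rw [show ((1 : ℤ).toNat) = 1 from rfl, pow_one] at h5
    have h6 : zt (stabI μ f) = geo ℂ (-(κ : ℤ)) 1 * (PowerSeries.C (1 -
        (((Lu ℂ) ^ (-(κ : ℤ)) : (MK ℂ)ˣ) : MK ℂ)) * PowerSeries.X + (1 - PowerSeries.X) *
          PowerSeries.rescale (((Lu ℂ) ^ (-(κ : ℤ)) : (MK ℂ)ˣ) : MK ℂ) (zt f)) := by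
      rw [← hrel]
      linear_combination (-(zt (stabI μ f))) * h5
    rw [h6]
    refine (ratRing ℂ _).mul_mem (geo_mem (p := (-(κ : ℤ), 1)) ⟨one_pos, ?_⟩)
      ((ratRing ℂ _).add_mem ((ratRing ℂ _).mul_mem (C_mem _ _) (X_mem _))
        ((ratRing ℂ _).mul_mem ((ratRing ℂ _).sub_mem (ratRing ℂ _).one_mem (X_mem _)) h1))
    intro h7
    apply hs
    push_cast at h7
    rw [div_one] at h7
    linarith

/-- **The poles of the two zeta functions.** -/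
theorem pole_iff (f : ι → MvPolynomial σ ℂ) (h0 : ∀ j, MvPolynomial.constantCoeff (f j) = 0)
    {s : ℚ} (h1 : s ≠ Fintype.card μ) (h2 : s ≠ 0) :
    IsPole (zetaJ f) s ↔ IsPole (zetaJ (stabI μ f)) (s - Fintype.card μ) :=
  ⟨fun h h3 => h ((mem_iff f h0).1 h1 h3), fun h h3 => h ((mem_iff f h0).2 h2 h3)⟩

theorem pole_down (f : ι → MvPolynomial σ ℂ) (h0 : ∀ j, MvPolynomial.constantCoeff (f j) = 0)
    {s : ℚ} (h1 : s ≠ Fintype.card μ) (h : IsPole (zetaJ f) s) :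
    IsPole (zetaJ (stabI μ f)) (s - Fintype.card μ) :=
  fun h3 => h ((mem_iff f h0).1 h1 h3)

end poles

end Pool.Agent.Q49.BR
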