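import Pool.Agent.Q49.BR.Fe
import Pool.Agent.Q49.BR.Rat
import Pool.Agent.Q223.ID.Red

/-!
# The reduction for germs of ideals
-/

set_option autoImplicit false
set_option linter.unusedSectionVars false

namespace Pool.Agent.Q49.BR

open MvPolynomial Pool.Agent.W574.SM Pool.Agent.W574.HS Pool.Agent.Q223.MM Pool.Agent.Q223.ID
open Pool.Agent.W428.MOT Pool.Agent.TH192.MT
open Pool.Agent.W375.MG (IsPole)
open Pool.Agent.Y229 (IsLocalBI)

section defs

variable {σ ι : Type} [Fintype σ] [Fintype ι]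

/-- For every pole `s` of the local motivic zeta function of the ideal generated by the `f j` and every
`b ≠ 0` which satisfies a local functional equation of the `f j` there is an integer `k` with
`b(s + k) = 0`. -/
def WeakPoles (f : ι → MvPolynomial σ ℂ) : Prop :=
  ∀ s : ℚ, IsPole (zetaJ f) s → ∀ b : Polynomial ℂ, b ≠ 0 → IsLocalBI f b →
    ∃ k : ℤ, b.eval ((s : ℂ) + k) = 0

/-- Every pole `s` of the local motivic zeta function of the ideal generated by the `f j` is a root of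
every `b` which satisfies a local functional equation of the `f j`. -/
def StrongPoles (f : ι → MvPolynomial σ ℂ) : Prop :=
  ∀ s : ℚ, IsPole (zetaJ f) s → ∀ b : Polynomial ℂ, IsLocalBI f b → b.eval (s : ℂ) = 0

/-- The log canonical threshold at the origin of the ideal generated by the `f j` is larger than `N`:
some `b ≠ 0` which satisfies a local functional equation has only roots with real part `< -N`. -/
def LctGtO (N : ℕ) (f : ι → MvPolynomial σ ℂ) : Prop :=
  ∃ b : Polynomial ℂ, b ≠ 0 ∧ IsLocalBI f b ∧ ∀ r ∈ b.roots, r.re < -(N : ℝ)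

end defs

section prog

variable {n r κ : ℕ}

theorem zetaJ_gens {o : Fin κ → Option (Fin κ)} (ho : Forest o) {v : Fin κ → Fin n}
    {a : Fin r → ℂ} {c : Fin r → Fin κ → ℂ} {e : Fin r → Fin κ → MvPolynomial (Fin n) ℂ}
    {f : Fin r → MvPolynomial (Fin n) ℂ} (hH : ∀ j, Horner o v (c j) (a j) (e j) (f j)) :
    zetaJ (gens o v a c) = zetaJ (stabI (Fin κ) f) := by
  rw [← zetaJ_iso (psi o v ho) (psi_org o v ho) (psi_org' o v ho) rfl (stabI (Fin κ) f)]
  have k1 : ∀ j : Fin r, gens o v a c (Sum.inl j) = rename Sum.inl (f j) +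
      ∑ m, rename Sum.inl (e j m) * gens o v a c (Sum.inr m) := fun j =>
    horner_keyI o v (hH j)
  have k2 : ∀ m : Fin κ, psi o v ho (stabI (Fin κ) f (Sum.inr m)) =
      gens o v a c (Sum.inr m) := fun m => psi_z o v ho m
  have k3 : ∀ j : Fin r, psi o v ho (stabI (Fin κ) f (Sum.inl j)) = rename Sum.inl (f j) :=
    fun j => psi_ren o v ho (f j)
  refine zetaJ_ideal ?_ ?_
  · rintro (j | m)
    · rw [k1 j]
      refine Ideal.add_mem _ (Ideal.subset_span ⟨Sum.inl j, k3 j⟩)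
        (Ideal.sum_mem _ fun m _ => Ideal.mul_mem_left _ _ (Ideal.subset_span ⟨Sum.inr m, k2 m⟩))
    · exact Ideal.subset_span ⟨Sum.inr m, k2 m⟩
  · rintro (j | m)
    · rw [k3 j]
      have h5 : rename Sum.inl (f j) = gens o v a c (Sum.inl j) -
          ∑ m, rename Sum.inl (e j m) * gens o v a c (Sum.inr m) := by
        rw [k1 j]
        ring
      rw [h5]
      exact Ideal.sub_mem _ (Ideal.subset_span ⟨Sum.inl j, rfl⟩)
        (Ideal.sum_mem _ fun m _ => Ideal.mul_mem_left _ _ (Ideal.subset_span ⟨Sum.inr m, rfl⟩))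
    · rw [k2 m]
      exact Ideal.subset_span ⟨Sum.inr m, rfl⟩

/-- the transfer of poles and functional equations -/
def Carries (κ : ℕ) {σ ι τ ι' : Type} [Fintype σ] [Fintype ι] [Fintype τ] [Fintype ι']
    (f : ι → MvPolynomial σ ℂ) (F : ι' → MvPolynomial τ ℂ) : Prop :=
  (∀ s : ℚ, s ≠ κ → IsPole (zetaJ f) s → IsPole (zetaJ F) (s - κ)) ∧
  (∀ s : ℚ, s ≠ 0 → IsPole (zetaJ F) (s - κ) → IsPole (zetaJ f) s) ∧
  ∀ b : Polynomial ℂ, IsLocalBI f b → IsLocalBI F (b.comp (Polynomial.X + Polynomial.C (κ : ℂ)))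

theorem carries_gens {o : Fin κ → Option (Fin κ)} (ho : Forest o) {v : Fin κ → Fin n}
    {a : Fin r → ℂ} {c : Fin r → Fin κ → ℂ} {e : Fin r → Fin κ → MvPolynomial (Fin n) ℂ}
    {f : Fin r → MvPolynomial (Fin n) ℂ} (hf : ∃ j, f j ≠ 0) (h0 : ∀ j, coeff 0 (f j) = 0)
    (hH : ∀ j, Horner o v (c j) (a j) (e j) (f j)) (hκ : 0 < κ) :
    Carries κ f (gens o v a c) := by
  have h1 : ∀ j, constantCoeff (f j) = 0 := h0
  refine ⟨fun s hs h => ?_, fun s hs h => ?_, fun b hb => ?_⟩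
  · rw [zetaJ_gens ho hH]
    have h2 := pole_down (μ := Fin κ) f h1 (s := s) (by rw [Fintype.card_fin]; exact hs) h
    rw [Fintype.card_fin] at h2
    exact h2
  · rw [zetaJ_gens ho hH] at h
    intro h3
    have h4 := (mem_iff (μ := Fin κ) f h1 (s := s)).2 hs h3
    rw [Fintype.card_fin] at h4
    exact h h4
  · exact localBI_gens ho hf hH ⟨Sum.inr ⟨0, hκ⟩, gens_ne o v a c _⟩ hb

theorem transfer {σ ι τ ι' τ' ι'' : Type} [Fintype σ] [Fintype ι] [Fintype τ] [Fintype ι']
    [Fintype τ'] [Fintype ι''] {f : ι → MvPolynomial σ ℂ} {F : ι' → MvPolynomial τ ℂ}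
    {F' : ι'' → MvPolynomial τ' ℂ} {κ κ' : ℕ} (hne : κ ≠ κ') (h : Carries κ f F)
    (h' : Carries κ' f F') :
    (WeakPoles F → WeakPoles F' → WeakPoles f) ∧
      (StrongPoles F → StrongPoles F' → StrongPoles f) := by
  have key : ∀ s : ℚ, s ≠ κ ∨ s ≠ κ' := by
    intro s
    by_contra h0
    push Not at h0
    apply hne
    have := h0.1.symm.trans h0.2
    exact_mod_cast this
  constructor
  · intro h1 h2 s hs b hb0 hb
    rcases key s with hk | hk
    · obtain ⟨k, hk⟩ := h1 _ (h.1 s hk hs) _ (comp_shift_ne hb0 (κ : ℂ)) (h.2.2 b hb)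
      refine ⟨k, ?_⟩
      rw [Polynomial.eval_comp, Polynomial.eval_add, Polynomial.eval_X, Polynomial.eval_C] at hk
      rw [← hk]
      congr 1
      push_cast
      ring
    · obtain ⟨k, hk⟩ := h2 _ (h'.1 s hk hs) _ (comp_shift_ne hb0 (κ' : ℂ)) (h'.2.2 b hb)
      refine ⟨k, ?_⟩
      rw [Polynomial.eval_comp, Polynomial.eval_add, Polynomial.eval_X, Polynomial.eval_C] at hk
      rw [← hk]
      congr 1
      push_cast
      ring
  · intro h1 h2 s hs b hb
    rcases key s with hk | hk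
    · have hk := h1 _ (h.1 s hk hs) _ (h.2.2 b hb)
      rw [Polynomial.eval_comp, Polynomial.eval_add, Polynomial.eval_X, Polynomial.eval_C] at hk
      rw [← hk]
      congr 1
      push_cast
      ring
    · have hk := h2 _ (h'.1 s hk hs) _ (h'.2.2 b hb)
      rw [Polynomial.eval_comp, Polynomial.eval_add, Polynomial.eval_X, Polynomial.eval_C] at hk
      rw [← hk]
      congr 1
      push_cast
      ring

/-- **The reduction for one germ.** -/
theorem reduceG (S : Set ℂ) (N n r : ℕ) (f : Fin r → MvPolynomial (Fin n) ℂ)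
    (hf : ∃ j, f j ≠ 0) (h0 : ∀ j, coeff 0 (f j) = 0)
    (hfS : ∀ j d, coeff d (f j) ∈ AddSubgroup.closure S) :
    ∃ κ₀ : ℕ, ∀ κ : ℕ, κ₀ ≤ κ → ∃ (o : Fin κ → Option (Fin κ)) (v : Fin κ → Fin n)
      (c : Fin r → Fin κ → ℂ), 0 < κ ∧ Forest o ∧ (∀ j m, c j m ∈ coeffs S) ∧
        LctGtO N (gens o v (fun _ => 0) c) ∧ Carries κ f (gens o v (fun _ => 0) c) := by
  classical
  have hn : 0 < n := by
    rcases Nat.eq_zero_or_pos n with rfl | h
    · exfalso
      obtain ⟨j, hj⟩ := hf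
      apply hj
      rw [eq_C_of_isEmpty (f j), ← constantCoeff_eq, constantCoeff_eq, h0, C_0]
    · exact h
  obtain ⟨κ₁, hr⟩ := repF_closure f hfS
  obtain ⟨b, hb0, hb⟩ := Pool.Agent.Y229.exists_fe f hf
  obtain ⟨M, hM⟩ := Pool.Agent.Q223.ID.re_bound b
  refine ⟨max κ₁ (M + N) + 1, fun κ hκ => ?_⟩
  have hκ1 : κ₁ ≤ κ := (le_max_left _ _).trans ((Nat.le_succ _).trans hκ)
  have hκN : M + N ≤ κ := (le_max_right _ _).trans ((Nat.le_succ _).trans hκ)
  have hκ0 : 0 < κ := lt_of_lt_of_le (Nat.succ_pos _) hκ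
  obtain ⟨o, v, c, e, ho, hc, hH⟩ := repF_ge (T := coeffs S) (Or.inl rfl) (⟨0, hn⟩ : Fin n) hr
    κ hκ1
  have e0 : (fun j => coeff 0 (f j)) = fun _ : Fin r => (0 : ℂ) := funext h0
  rw [e0] at hH
  have hC := carries_gens ho hf h0 hH hκ0
  refine ⟨o, v, c, hκ0, ho, hc, ?_, hC⟩
  refine ⟨_, comp_shift_ne hb0 (κ : ℂ), hC.2.2 b (Pool.Agent.Q49.CO.localBI_of_fe f b hb),
    fun s hs => ?_⟩
  rw [Polynomial.mem_roots (comp_shift_ne hb0 _), Polynomial.IsRoot.def,
    Polynomial.eval_comp] at hs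
  have h2 := hM _ ((Polynomial.mem_roots hb0).2 hs)
  rw [Polynomial.eval_add, Polynomial.eval_X, Polynomial.eval_C, Complex.add_re,
    Complex.natCast_re] at h2
  have h3 : ((M + N : ℕ) : ℝ) ≤ (κ : ℝ) := by exact_mod_cast hκN
  push_cast at h3
  linarith

end prog

/-! ### The class of the programs -/

section back

theorem zetaJ_congr {σ τ ι ι' : Type} [Fintype σ] [Fintype τ] [Fintype ι] [Fintype ι']
    (e : σ ≃ τ) (e' : ι' ≃ ι) (f : ι → MvPolynomial σ ℂ) :
    zetaJ (fun j' => rename e (f (e' j'))) = zetaJ f := by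
  have h1 : zetaJ (fun j => renameEquiv ℂ e (f j)) = zetaJ f :=
    zetaJ_iso _ (fun i => by rw [renameEquiv_apply, rename_X, constantCoeff_X])
      (fun i => by rw [renameEquiv_symm, renameEquiv_apply, rename_X, constantCoeff_X])
      (Fintype.card_congr e).symm f
  rw [← h1]
  refine zetaJ_ideal (fun j => ?_) (fun j => ?_)
  · exact Ideal.subset_span ⟨e' j, rfl⟩
  · refine Ideal.subset_span ⟨e'.symm j, ?_⟩
    beta_reduce
    rw [Equiv.apply_symm_apply]
    rfl

theorem localBI_congr {σ τ ι ι' : Type} [Fintype σ] [Fintype τ] [Fintype ι] [Fintype ι']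
    (e : σ ≃ τ) (e' : ι' ≃ ι) {f : ι → MvPolynomial σ ℂ} (hne : ∃ j, f j ≠ 0) {b : Polynomial ℂ}
    (hb : IsLocalBI f b) : IsLocalBI (fun j' => rename e (f (e' j'))) b := by
  classical
  have h1 := Pool.Agent.Q57.MC.univ_of_localBI f b hb
  have h2 := local_iso (renameEquiv ℂ (Equiv.sumCongr e'.symm e))
    (fun i => by rw [renameEquiv_apply, rename_X, constantCoeff_X]) h1
  rw [renameEquiv_apply, ← univ_congr] at h2
  refine Pool.Agent.Q57.MC.localBI_of_univ _ ?_ _ h2
  obtain ⟨j, hj⟩ := hne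
  refine ⟨e'.symm j, ?_⟩
  rw [Equiv.apply_symm_apply, Ne, map_eq_zero_iff _ (rename_injective _ e.injective)]
  exact hj

theorem gensF_back {n r κ : ℕ} (o : Fin κ → Option (Fin κ)) (v : Fin κ → Fin n)
    (c : Fin r → Fin κ → ℂ) (hκ : 0 < κ) :
    (WeakPoles (gensF o v (fun _ => 0) c) → WeakPoles (gens o v (fun _ => 0) c)) ∧
      (StrongPoles (gensF o v (fun _ => 0) c) → StrongPoles (gens o v (fun _ => 0) c)) := by
  have hz : zetaJ (gensF o v (fun _ => 0) c) = zetaJ (gens o v (fun _ => 0) c) :=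
    zetaJ_congr finSumFinEquiv finSumFinEquiv.symm _
  have hb : ∀ b : Polynomial ℂ, IsLocalBI (gens o v (fun _ => 0) c) b →
      IsLocalBI (gensF o v (fun _ => 0) c) b := fun b hb =>
    localBI_congr finSumFinEquiv finSumFinEquiv.symm
      ⟨Sum.inr ⟨0, hκ⟩, gens_ne o v (fun _ => 0) c _⟩ hb
  constructor
  · intro h s hs b hb0 hbb
    exact h s (by rw [hz]; exact hs) b hb0 (hb b hbb)
  · intro h s hs b hbb
    exact h s (by rw [hz]; exact hs) b (hb b hbb)

theorem gensF_org {n r κ : ℕ} (o : Fin κ → Option (Fin κ)) (v : Fin κ → Fin n)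
    (c : Fin r → Fin κ → ℂ) (j : Fin (r + κ)) : coeff 0 (gensF o v (fun _ => 0) c j) = 0 := by
  unfold gensF
  rw [← constantCoeff_eq, constantCoeff_rename]
  generalize finSumFinEquiv.symm j = i
  unfold gens
  rcases i with j | m
  · rw [Sum.elim_inl, map_add, constantCoeff_C, map_sum, zero_add]
    refine Finset.sum_eq_zero fun m _ => ?_
    rw [map_mul, constantCoeff_X, mul_zero]
  · rw [Sum.elim_inr, map_sub, map_mul, constantCoeff_X, constantCoeff_X, mul_zero, sub_zero]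

end back

end Pool.Agent.Q49.BR
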