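import Pool.Agent.Q49.BR.Jets

/-!
# The local zeta function of the ideal `(f, u_1, …, u_κ)`
-/

set_option autoImplicit false
set_option linter.unusedSectionVars false

namespace Pool.Agent.Q49.BR

open MvPolynomial Pool.Agent.W428.MOT Pool.Agent.TH192.MT Pool.Agent.Q223.ID
open Pool.Agent.W63.MTFin (mapMeas L_mul)

variable {σ τ ι ι' μ : Type} [Fintype σ] [Fintype τ] [Fintype μ]

/-- the local zeta function without the power of `𝕃` in front -/
noncomputable def zt (f : ι → MvPolynomial σ ℂ) : PowerSeries (MK ℂ) :=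
  PowerSeries.mk fun N => if N = 0 then 0 else
    algebraMap (K0 ℂ) (MK ℂ) (cls (σ × Fin (N + 1)) (JetF f {0} N)) *
      (((Lu ℂ) ^ (-((Fintype.card σ * N : ℕ) : ℤ)) : (MK ℂ)ˣ) : MK ℂ)

theorem zetaJ_zt (f : ι → MvPolynomial σ ℂ) : zetaJ f =
    PowerSeries.C (((Lu ℂ) ^ (-(Fintype.card σ : ℤ)) : (MK ℂ)ˣ) : MK ℂ) * zt f := rfl

/-- **The relation of the local zeta functions of `(f)` and `(f, u_1, …, u_κ)`.** -/
theorem zt_stab [Finite ι] (f : ι → MvPolynomial σ ℂ) (h0 : ∀ j, constantCoeff (f j) = 0) :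
    (1 - PowerSeries.C ((((Lu ℂ)⁻¹ : (MK ℂ)ˣ) : MK ℂ) ^ Fintype.card μ) * PowerSeries.X) *
      zt (stabI μ f) =
    PowerSeries.C (1 - (((Lu ℂ)⁻¹ : (MK ℂ)ˣ) : MK ℂ) ^ Fintype.card μ) * PowerSeries.X +
    (1 - PowerSeries.X) * PowerSeries.rescale ((((Lu ℂ)⁻¹ : (MK ℂ)ˣ) : MK ℂ) ^ Fintype.card μ)
      (zt f) := by
  obtain ⟨M₀, hM₀⟩ := Pool.Agent.W417.MT.K0.main ℂ
  set M := mapMeas M₀ (algebraMap (K0 ℂ) (MK ℂ)) with hM
  set Y : MK ℂ := (((Lu ℂ)⁻¹ : (MK ℂ)ˣ) : MK ℂ) with hY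
  set L : MK ℂ := ((Lu ℂ : (MK ℂ)ˣ) : MK ℂ) with hLdef
  have hLY : L * Y = 1 := Units.mul_inv _
  have hML : M.L = L := by
    have hL : M.L * Y = 1 := L_mul hM₀
    calc M.L = M.L * (L * Y) := by rw [hLY, mul_one]
      _ = (M.L * Y) * L := by ring
      _ = _ := by rw [hL, one_mul]
  set κ := Fintype.card μ with hκ
  set n := Fintype.card σ with hn
  have h3n : L ^ n * Y ^ n = 1 := by rw [← mul_pow, hLY, one_pow]
  have h3κ : L ^ κ * Y ^ κ = 1 := by rw [← mul_pow, hLY, one_pow]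
  have hz : ∀ d, PowerSeries.coeff (d + 1) (zt f) =
      M.χ _ (JetF f {0} (d + 1)) * Y ^ (n * (d + 1)) := by
    intro d
    rw [zt, PowerSeries.coeff_mk, if_neg (Nat.succ_ne_zero d), zpow_neg, zpow_natCast, ← inv_pow,
      Units.val_pow_eq_pow_val, ← hM₀]
    rfl
  have hz' : ∀ d, PowerSeries.coeff (d + 1) (zt (stabI μ f)) =
      M.χ _ (JetF (stabI μ f) {0} (d + 1)) * Y ^ ((n + κ) * (d + 1)) := by
    intro d
    rw [zt, PowerSeries.coeff_mk, if_neg (Nat.succ_ne_zero d), zpow_neg, zpow_natCast, ← inv_pow,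
      Units.val_pow_eq_pow_val, ← hM₀, Fintype.card_sum]
    rfl
  have hz0 : PowerSeries.coeff 0 (zt f) = 0 := by
    rw [zt, PowerSeries.coeff_mk, if_pos rfl]
  have hz0' : PowerSeries.coeff 0 (zt (stabI μ f)) = 0 := by
    rw [zt, PowerSeries.coeff_mk, if_pos rfl]
  set A : ℕ → MK ℂ := fun d => M.χ _ (JetF f {0} (d + 1)) * Y ^ (n * (d + 1)) with hA
  set t : ℕ → MK ℂ := fun d => M.χ _ (T0 f (d + 1) (d + 1)) * Y ^ (n * (d + 1)) with ht
  have ht0 : t 0 = 1 := by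
    rw [ht]
    beta_reduce
    rw [zero_add, chi_T0_one M f h0, hML, mul_one, h3n]
  have hts : ∀ d, t (d + 1) = t d - A d := by
    intro d
    rw [ht, hA]
    beta_reduce
    rw [chi_T0_succ, hML, chi_T0 M f (d + 1)]
    rw [show n * (d + 1 + 1) = n + n * (d + 1) by ring, pow_add]
    linear_combination (M.χ _ (T0 f (d + 1 + 1) (d + 1)) * Y ^ (n * (d + 1))) * h3n
  have hA' : ∀ d, M.χ _ (JetF (stabI μ f) {0} (d + 1)) * Y ^ ((n + κ) * (d + 1)) =
      Y ^ (κ * (d + 1)) * (A d + (L ^ κ - 1) * t d) := by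
    intro d
    have h1 := chi_T0 M (stabI μ f) (d + 1)
    rw [chi_T0_stab0, chi_T0_stab1, hML] at h1
    have h2 := chi_T0 M f (d + 1)
    rw [ht, hA]
    beta_reduce
    rw [show (n + κ) * (d + 1) = κ * (d + 1) + n * (d + 1) by ring, pow_add]
    have h3 : M.χ _ (JetF (stabI μ f) {0} (d + 1)) =
        M.χ _ (JetF f {0} (d + 1)) + (L ^ κ - 1) * M.χ _ (T0 f (d + 1) (d + 1)) := by
      linear_combination h2 - h1
    rw [h3]
    ring
  have hX : (1 - PowerSeries.X : PowerSeries (MK ℂ)) = 1 - PowerSeries.C 1 * PowerSeries.X := by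
    rw [map_one, one_mul]
  rw [hX]
  ext d
  rcases d with _ | _ | d
  · rw [coeff_zero_lin, hz0', map_add, coeff_zero_lin, PowerSeries.coeff_C_mul,
      PowerSeries.coeff_zero_X, PowerSeries.coeff_rescale, hz0]
    simp
  · rw [coeff_succ_lin, hz', hz0', map_add, coeff_succ_lin, PowerSeries.coeff_C_mul,
      PowerSeries.coeff_one_X, PowerSeries.coeff_rescale, PowerSeries.coeff_rescale, hz, hz0, hA',
      ht0]
    show _ = _ + ((Y ^ κ) ^ (0 + 1) * A 0 - _)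
    rw [zero_add, mul_one, pow_one]
    linear_combination h3κ
  · rw [coeff_succ_lin, hz', hz', map_add, coeff_succ_lin, PowerSeries.coeff_C_mul,
      PowerSeries.coeff_X, if_neg (by omega), PowerSeries.coeff_rescale, hz,
      PowerSeries.coeff_rescale, hz, hA', hA', hts]
    show _ = _ + ((Y ^ κ) ^ (d + 1 + 1) * A (d + 1) - 1 * ((Y ^ κ) ^ (d + 1) * A d))
    rw [show κ * (d + 1 + 1) = κ + κ * (d + 1) by ring, pow_add Y κ (κ * (d + 1)),
      pow_mul Y κ (d + 1), pow_succ (Y ^ κ) (d + 1)]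
    linear_combination ((Y ^ κ) ^ (d + 1) * A d) * (-h3κ)

/-! ### Invariance -/

theorem chi_iso0 {K : Type} [Field K] {σ τ ι : Type} [Finite ι] {R : Type} [CommRing R]
    (M : Meas K R) [Fintype σ] [Fintype τ]
    (ψ : MvPolynomial σ K ≃ₐ[K] MvPolynomial τ K) (hψ : ∀ i, constantCoeff (ψ (X i)) = 0)
    (hψ' : ∀ i, constantCoeff (ψ.symm (X i)) = 0) (f : ι → MvPolynomial σ K) (N : ℕ) :
    M.χ _ (JetF (fun j => ψ (f j)) {0} N) = M.χ _ (JetF f {0} N) := by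
  have h1 : ∀ g, (ψ : MvPolynomial σ K →ₐ[K] MvPolynomial τ K)
      ((ψ.symm : MvPolynomial τ K →ₐ[K] MvPolynomial σ K) g) = g :=
    fun g => ψ.apply_symm_apply g
  have h2 : ∀ g, (ψ.symm : MvPolynomial τ K →ₐ[K] MvPolynomial σ K)
      ((ψ : MvPolynomial σ K →ₐ[K] MvPolynomial τ K) g) = g :=
    fun g => ψ.symm_apply_apply g
  have org : ∀ {σ τ : Type} (φ : MvPolynomial σ K →ₐ[K] MvPolynomial τ K),
      (∀ i, constantCoeff (φ (X i)) = 0) → ∀ z : Pt K (τ × Fin (N + 1)),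
      (fun i => z (i, 0)) ∈ ({0} : Set (Pt K τ)) →
      (fun i => Tm φ N z (i, 0)) ∈ ({0} : Set (Pt K σ)) := by
    intro σ τ φ hφ z hz
    funext i
    change PowerSeries.coeff 0 (aeval (ar z) (φ (X i))) = 0
    have h3 := coeff_congr (φ (X i)) 0 (ar z) 0 (fun i k hk => by
      obtain rfl : k = 0 := by omega
      rw [coeff_ar' _ _ _ (Nat.succ_pos N)]
      have := congrFun hz i
      simpa using this) 0 le_rfl
    rw [h3, MvPolynomial.aeval_zero, hφ, map_zero, map_zero]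
  refine M.iso _ _ (constr_JetF _ constr_single N) (constr_JetF f constr_single N)
    (Tm (ψ : MvPolynomial σ K →ₐ[K] MvPolynomial τ K) N)
    (Tm (ψ.symm : MvPolynomial τ K →ₐ[K] MvPolynomial σ K) N)
    (regularOn_poly (fun p => isPF_Tm _ N p) _) (regularOn_poly (fun p => isPF_Tm _ N p) _)
    ?_ ?_ (fun z _ => Tm_Tm _ _ h1 z) (fun z _ => Tm_Tm _ _ h2 z)
  · rintro z ⟨g1, g2, j, g3⟩
    refine ⟨org _ hψ _ g1, fun j k hk => ?_, j, ?_⟩
    · rw [coeff_Tm _ _ _ _ hk.le]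
      exact g2 j k hk
    · rw [coeff_Tm _ _ _ _ le_rfl]
      exact g3
  · rintro z ⟨g1, g2, j, g3⟩
    refine ⟨org _ hψ' _ g1, fun j k hk => ?_, j, ?_⟩
    · rw [coeff_Tm _ _ _ _ hk.le]
      have e3 : (ψ.symm : MvPolynomial τ K →ₐ[K] MvPolynomial σ K) (ψ (f j)) = f j :=
        ψ.symm_apply_apply (f j)
      rw [e3]
      exact g2 j k hk
    · rw [coeff_Tm _ _ _ _ le_rfl]
      have e3 : (ψ.symm : MvPolynomial τ K →ₐ[K] MvPolynomial σ K) (ψ (f j)) = f j :=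
        ψ.symm_apply_apply (f j)
      rw [e3]
      exact g3

theorem jetF_and {K : Type} [Field K] {σ ι : Type} (f : ι → MvPolynomial σ K)
    (W : Set (Pt K σ)) (N : ℕ) :
    JetF f W N = {z | (fun i => z (i, 0)) ∈ W} ∩ JetF f Set.univ N := by
  ext z
  constructor
  · rintro ⟨h1, h2⟩
    exact ⟨h1, trivial, h2⟩
  · rintro ⟨h1, -, h2⟩
    exact ⟨h1, h2⟩

theorem zetaJ_iso [Finite ι] (ψ : MvPolynomial σ ℂ ≃ₐ[ℂ] MvPolynomial τ ℂ)
    (hψ : ∀ i, constantCoeff (ψ (X i)) = 0) (hψ' : ∀ i, constantCoeff (ψ.symm (X i)) = 0)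
    (hc : Fintype.card τ = Fintype.card σ) (f : ι → MvPolynomial σ ℂ) :
    zetaJ (fun j => ψ (f j)) = zetaJ f := by
  obtain ⟨M₀, hM₀⟩ := Pool.Agent.W417.MT.K0.main ℂ
  rw [zetaJ_zt, zetaJ_zt, hc]
  congr 1
  ext d
  rw [zt, zt, PowerSeries.coeff_mk, PowerSeries.coeff_mk, ← hM₀, ← hM₀,
    chi_iso0 M₀ ψ hψ hψ' f d, hc]

theorem zetaJ_ideal {f : ι → MvPolynomial σ ℂ} {g : ι' → MvPolynomial σ ℂ}
    (h : ∀ j, f j ∈ Ideal.span (Set.range g)) (h' : ∀ j, g j ∈ Ideal.span (Set.range f)) :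
    zetaJ f = zetaJ g := by
  rw [zetaJ_zt, zetaJ_zt]
  congr 1
  ext d
  rw [zt, zt, PowerSeries.coeff_mk, PowerSeries.coeff_mk, jetF_and f, jetF_and g,
    jetF_ideal h h']

end Pool.Agent.Q49.BR
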